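import Pool.Agent.Run7.h473.MD.Iface

set_option autoImplicit false

/-!
Piece DOM2 of helper473's project MD (`MP_fed7ff_nt`): the domain of continuation from the reflections.
-/

namespace Pool.Agent.Run7.h713.MDS

open Complex Filter Topology MeasureTheory Set
open Pool.Agent.Q48.MDS Pool.Agent.N879.QM Pool.Agent.Run7.h473.MD

/-- lowering one coordinate -/
theorem lower (hREF : S_REF) {k M : ℕ} (hM : 1 ≤ M) (j : Fin k) {p : Fin (k + 1) → ℝ}
    (hp : ContinuesTo k M p) (h1 : 1 / 2 < p j.succ) (h2 : p j.succ < 1) {s : ℝ} (hs1 : 1 / 2 ≤ s)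
    (hs2 : s ≤ p j.succ) :
    ContinuesTo k M (fun i => if i = 0 then p 0 + (p j.succ - s) / 2 else if i = j.succ then s else p i) := by
  have h3 := hREF k M j p hM hp (by linarith) h2
  have hden : 0 < 2 * p j.succ - 1 := by linarith
  have hne : 2 * p j.succ - 1 ≠ 0 := hden.ne'
  obtain ⟨b, hb⟩ : ∃ b : ℝ, b = (p j.succ - s) / (2 * p j.succ - 1) := ⟨_, rfl⟩
  have hb1 : b * (2 * p j.succ - 1) = p j.succ - s := by rw [hb, div_mul_cancel₀ _ hne]
  have hb0 : 0 ≤ b := by rw [hb]; exact div_nonneg (by linarith) hden.le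
  have hb2 : 0 ≤ 1 - b := by
    rw [hb, sub_nonneg, div_le_one hden]; linarith
  have h4 := convex_continuesTo k M (x := p) hp (y := rf j p) h3 hb2 hb0 (by ring)
  have h5 : (fun i => if i = 0 then p 0 + (p j.succ - s) / 2 else if i = j.succ then s else p i) =
      (1 - b) • p + b • rf j p := by
    funext i
    simp only [Pi.add_apply, Pi.smul_apply, smul_eq_mul]
    unfold rf
    by_cases hi : i = 0
    · subst hi
      rw [if_pos rfl, if_pos rfl]
      linear_combination (-1 / 2) * hb1
    · rw [if_neg hi, if_neg hi]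
      by_cases hi2 : i = j.succ
      · subst hi2
        rw [if_pos rfl, if_pos rfl]
        linear_combination hb1
      · rw [if_neg hi2, if_neg hi2]
        ring
  rw [h5]
  exact h4

theorem t_DOM2 : S_DOM → S_REF → S_DOM2 := by
  classical
  intro hDOM hREF k M p hM hp0 hpj hk
  obtain ⟨U, hU⟩ : ∃ U : ℝ, U = ∑ j : Fin k, max (1 - p j.succ) 0 := ⟨_, rfl⟩
  have hU0 : 0 ≤ U := by
    rw [hU]; exact Finset.sum_nonneg fun j _ => le_max_right _ _
  have hUk : (k : ℝ) - U = ∑ j : Fin k, min (p j.succ) 1 := by
    have h1 : (k : ℝ) = ∑ _j : Fin k, (1 : ℝ) := by simp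
    rw [hU, h1, ← Finset.sum_sub_distrib]
    refine Finset.sum_congr rfl fun j _ => ?_
    rcases le_total (p j.succ) 1 with h | h
    · rw [max_eq_left (by linarith), min_eq_left h]; ring
    · rw [max_eq_right (by linarith), min_eq_right h]; ring
  have hU2 : U < 2 * p 0 := by linarith
  -- the ratio
  obtain ⟨l, hl0, hl1, hl2, hl3⟩ : ∃ l : ℝ, 0 < l ∧ l < 1 ∧ l * U < 2 ∧ (1 - l) * U ≤ 2 * (p 0 - 1) := by
    rcases hU0.eq_or_lt with h | h
    · refine ⟨1 / 2, by norm_num, by norm_num, ?_, ?_⟩
      · rw [← h]; norm_num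
      · rw [← h]; linarith
    · obtain ⟨a, ha⟩ : ∃ a : ℝ, a = max (U - 2 * (p 0 - 1)) 0 := ⟨_, rfl⟩
      obtain ⟨b, hb⟩ : ∃ b : ℝ, b = min 2 U := ⟨_, rfl⟩
      have ha0 : 0 ≤ a := by rw [ha]; exact le_max_right _ _
      have ha1 : U - 2 * (p 0 - 1) ≤ a := by rw [ha]; exact le_max_left _ _
      have hb1 : b ≤ 2 := by rw [hb]; exact min_le_left _ _
      have hb2 : b ≤ U := by rw [hb]; exact min_le_right _ _
      have hab : a < b := by
        rw [ha, hb]
        refine max_lt (lt_min (by linarith) (by linarith)) (lt_min (by norm_num) h)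
      refine ⟨(a + b) / 2 / U, div_pos (by linarith) h, ?_, ?_, ?_⟩
      · rw [div_lt_one h]; linarith
      · rw [div_mul_cancel₀ _ h.ne']; linarith
      · rw [sub_mul, div_mul_cancel₀ _ h.ne']; linarith
  obtain ⟨q, hq⟩ : ∃ q : Fin k → ℝ, q = fun j => p j.succ + (1 - l) * max (1 - p j.succ) 0 := ⟨_, rfl⟩
  have hqge : ∀ j, p j.succ ≤ q j := fun j => by
    rw [hq]
    have : 0 ≤ (1 - l) * max (1 - p j.succ) 0 := mul_nonneg (by linarith) (le_max_right _ _)
    simp only; linarith
  have hq1 : ∀ j, 1 ≤ p j.succ → q j = p j.succ := fun j hj => by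
    rw [hq]; simp only; rw [max_eq_right (by linarith)]; ring
  have hq2 : ∀ j, p j.succ < 1 → q j = 1 - l * (1 - p j.succ) := fun j hj => by
    rw [hq]; simp only; rw [max_eq_left (by linarith)]; ring
  have hq3 : ∀ j, 1 / 2 < q j := fun j => by
    rcases le_or_gt 1 (p j.succ) with h | h
    · rw [hq1 j h]; linarith
    · rw [hq2 j h]
      have := hpj j
      nlinarith
  have hq4 : ∀ j, p j.succ < 1 → q j < 1 := fun j hj => by
    rw [hq2 j hj]
    have : 0 < l * (1 - p j.succ) := mul_pos hl0 (by linarith)
    linarith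
  have hq5 : ∑ j : Fin k, max (1 - q j) 0 = l * U := by
    rw [hU, Finset.mul_sum]
    refine Finset.sum_congr rfl fun j _ => ?_
    rcases le_or_gt 1 (p j.succ) with h | h
    · rw [hq1 j h, max_eq_right (by linarith)]; ring
    · rw [hq2 j h, max_eq_left (a := 1 - p j.succ) (by linarith), max_eq_left]
      · ring
      · have : 0 < l * (1 - p j.succ) := mul_pos hl0 (by linarith)
        linarith
  have hq6 : ∑ j : Fin k, (q j - p j.succ) / 2 = (1 - l) * U / 2 := by
    rw [hU, ← Finset.sum_div, Finset.mul_sum]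
    congr 1
    refine Finset.sum_congr rfl fun j _ => ?_
    rw [hq]; simp only; ring
  -- the starting point
  have hstart : ContinuesTo k M (Fin.cons 1 q : Fin (k + 1) → ℝ) := by
    apply hDOM k M _ hM
    · simp
    · intro j; simpa using hq3 j
    · simp only [Fin.cons_succ]
      rw [hq5]; exact hl2
  have hind : ∀ J : Finset (Fin k), ContinuesTo k M (Fin.cons (1 + ∑ j ∈ J, (q j - p j.succ) / 2)
      (fun j => if j ∈ J then p j.succ else q j) : Fin (k + 1) → ℝ) := by
    intro J
    induction J using Finset.induction_on with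
    | empty => simpa using hstart
    | insert a J ha ih =>
      rcases le_or_gt 1 (p a.succ) with h | h
      · refine ih.up fun i => ?_
        refine Fin.cases ?_ (fun j => ?_) i
        · simp only [Fin.cons_zero]
          rw [Finset.sum_insert ha]
          have := hqge a
          linarith
        · simp only [Fin.cons_succ]
          by_cases hj : j = a
          · subst hj
            rw [if_neg ha, if_pos (Finset.mem_insert_self _ _), hq1 j h]
          · by_cases hj2 : j ∈ J
            · rw [if_pos hj2, if_pos (Finset.mem_insert_of_mem hj2)]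
            · rw [if_neg hj2, if_neg (by simp [hj, hj2])]
      · have hc : (Fin.cons (1 + ∑ j ∈ J, (q j - p j.succ) / 2)
            (fun j => if j ∈ J then p j.succ else q j) : Fin (k + 1) → ℝ) a.succ = q a := by
          simp only [Fin.cons_succ]; rw [if_neg ha]
        have h5 := lower hREF hM a ih (by rw [hc]; exact hq3 a) (by rw [hc]; exact hq4 a h)
          (s := p a.succ) (hpj a) (by rw [hc]; exact hqge a)
        rw [hc] at h5
        refine h5.up fun i => ?_
        refine Fin.cases ?_ (fun j => ?_) i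
        · simp only [Fin.cons_zero, if_true]
          rw [Finset.sum_insert ha]
          apply le_of_eq
          ring
        · simp only [Fin.cons_succ, Fin.succ_ne_zero, if_false]
          by_cases hj : j = a
          · subst hj
            rw [if_pos rfl, if_pos (Finset.mem_insert_self _ _)]
          · have hj' : j.succ ≠ a.succ := fun h => hj (Fin.succ_injective _ h)
            rw [if_neg hj']
            by_cases hj2 : j ∈ J
            · rw [if_pos hj2, if_pos (Finset.mem_insert_of_mem hj2)]
            · rw [if_neg hj2, if_neg (by simp [hj, hj2])]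
  refine (hind Finset.univ).up fun i => ?_
  refine Fin.cases ?_ (fun j => ?_) i
  · simp only [Fin.cons_zero]
    rw [hq6]
    linarith
  · simp

end Pool.Agent.Run7.h713.MDS
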