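import Pool.Agent.Run7.h473.MD.Iface
import Pool.Agent.W215.QP.Fe

set_option autoImplicit false

/-!
Piece FEQ of helper473's project MD (`MP_fed7ff_nt`): the functional equation with root number one.
-/

namespace Pool.Agent.Run7.h713.MDS

open Complex Filter Topology MeasureTheory Set
open Pool.Agent.Q48.MDS Pool.Agent.N879.QM Pool.Agent.Run7.h473.MD

theorem ch_spec {d : ℕ} (h : Is 1 d) : Rp 1 (ch 1 d) := by
  unfold ch
  rw [dif_pos h]
  exact h.2.choose_spec

theorem rootNumber_eq_one {N : ℕ} [NeZero N] (χ : DirichletCharacter ℂ N) (h1 : χ.IsPrimitive)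
    (h2 : χ ^ 2 = 1) (h3 : χ ≠ 1) : DirichletCharacter.rootNumber χ = 1 := by
  obtain ⟨_, hsym, hpos⟩ := Pool.Agent.W215.QP.fe N inferInstance χ h1 h2 h3
  have hinv : χ⁻¹ = χ := by
    have : χ * χ = 1 := by rw [← pow_two]; exact h2
    exact inv_eq_of_mul_eq_one_left this
  have hN : (0 : ℝ) < N := by exact_mod_cast Nat.pos_of_ne_zero (NeZero.ne N)
  have hNC : (N : ℂ) ≠ 0 := by exact_mod_cast NeZero.ne N
  have hFE : ∀ s : ℂ, DirichletCharacter.completedLFunction χ (1 - s) =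
      (N : ℂ) ^ (s - 1 / 2) * DirichletCharacter.rootNumber χ *
        DirichletCharacter.completedLFunction χ s := by
    intro s
    have e1 := h1.completedLFunction_one_sub s
    rw [hinv] at e1
    exact e1
  have hne : DirichletCharacter.completedLFunction χ ((1 : ℝ) : ℂ) ≠ 0 := by
    intro h0
    have := hpos 1 le_rfl
    unfold Pool.Agent.W169.QP.Lam at this
    rw [h0] at this
    simp at this
  have hsq : DirichletCharacter.rootNumber χ ^ 2 = 1 := by
    have e1 := hFE ((1 : ℝ) : ℂ)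
    have e2 := hFE (1 - ((1 : ℝ) : ℂ))
    rw [sub_sub_cancel, e1] at e2
    have e3 : (N : ℂ) ^ (1 - ((1 : ℝ) : ℂ) - 1 / 2) * (N : ℂ) ^ (((1 : ℝ) : ℂ) - 1 / 2) = 1 := by
      rw [← Complex.cpow_add _ _ hNC]
      have : (1 : ℂ) - ((1 : ℝ) : ℂ) - 1 / 2 + (((1 : ℝ) : ℂ) - 1 / 2) = 0 := by push_cast; ring
      rw [this, Complex.cpow_zero]
    have e4 : DirichletCharacter.completedLFunction χ ((1 : ℝ) : ℂ) *
        (DirichletCharacter.rootNumber χ ^ 2 - 1) = 0 := by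
      linear_combination -e2 - DirichletCharacter.rootNumber χ ^ 2 *
        DirichletCharacter.completedLFunction χ ((1 : ℝ) : ℂ) * e3
    rcases mul_eq_zero.mp e4 with h | h
    · exact absurd h hne
    · exact sub_eq_zero.mp h
  have hor : DirichletCharacter.rootNumber χ = 1 ∨ DirichletCharacter.rootNumber χ = -1 := by
    rcases mul_eq_zero.mp (show (DirichletCharacter.rootNumber χ - 1) *
      (DirichletCharacter.rootNumber χ + 1) = 0 by linear_combination hsq) with h | h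
    · exact Or.inl (sub_eq_zero.mp h)
    · exact Or.inr (eq_neg_of_add_eq_zero_left h)
  rcases hor with h | h
  · exact h
  · exfalso
    have e1 := hsym 1
    have e2 := hpos 1 le_rfl
    rw [← e1] at e2
    unfold Pool.Agent.W169.QP.Lam at e1 e2
    have e3 := hFE ((1 : ℝ) : ℂ)
    have e5 : (((1 - 1 : ℝ)) : ℂ) = 1 - ((1 : ℝ) : ℂ) := by push_cast; rfl
    have e4 : (N : ℂ) ^ (((1 : ℝ) : ℂ) - 1 / 2) = (((N : ℝ) ^ (1 - 1 / 2 : ℝ) : ℝ) : ℂ) := by
      rw [Complex.ofReal_cpow hN.le]; push_cast; rfl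
    rw [e5, e3, h, e4] at e1 e2
    have e6 : ((((N : ℝ) ^ (1 - 1 / 2 : ℝ) : ℝ) : ℂ) * -1 *
        DirichletCharacter.completedLFunction χ ((1 : ℝ) : ℂ)).re =
        -((N : ℝ) ^ (1 - 1 / 2 : ℝ) *
          (DirichletCharacter.completedLFunction χ ((1 : ℝ) : ℂ)).re) := by
      have : (((N : ℝ) ^ (1 - 1 / 2 : ℝ) : ℝ) : ℂ) * -1 *
        DirichletCharacter.completedLFunction χ ((1 : ℝ) : ℂ) =
        ((-((N : ℝ) ^ (1 - 1 / 2 : ℝ)) : ℝ) : ℂ) *
          DirichletCharacter.completedLFunction χ ((1 : ℝ) : ℂ) := by push_cast; ring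
      rw [this, Complex.re_ofReal_mul]; ring
    have e7 := hpos 1 le_rfl
    unfold Pool.Agent.W169.QP.Lam at e7
    rw [e6] at e2
    have e8 : 0 < (N : ℝ) ^ ((1 - 1 : ℝ) / 2) := Real.rpow_pos_of_pos hN _
    have e9 : 0 < (N : ℝ) ^ ((1 : ℝ) / 2) := Real.rpow_pos_of_pos hN _
    have e10 : 0 < (N : ℝ) ^ (1 - 1 / 2 : ℝ) := Real.rpow_pos_of_pos hN _
    have e11 : 0 < (DirichletCharacter.completedLFunction χ ((1 : ℝ) : ℂ)).re :=
      (mul_pos_iff_of_pos_left e9).mp e7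
    have e12 := (mul_pos_iff_of_pos_left e8).mp e2
    have e13 := mul_pos e10 e11
    exact absurd (neg_pos.mp e12) (not_lt.mpr e13.le)

theorem t_FEQ : S_FEQ := by
  intro d hd s h0 h1
  have hd2 := hd.1
  have hne : d ≠ 0 := by omega
  have : NeZero d := ⟨hne⟩
  obtain ⟨hp, hsq, hn1, hev⟩ := ch_spec hd
  have hW := rootNumber_eq_one (ch 1 d) hp hsq hn1
  have hinv : (ch 1 d)⁻¹ = ch 1 d := by
    have : ch 1 d * ch 1 d = 1 := by rw [← pow_two]; exact hsq
    exact inv_eq_of_mul_eq_one_left this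
  have heven : (ch 1 d).Even := by
    rw [DirichletCharacter.Even, hev]; norm_num
  have hdC : (d : ℂ) ≠ 0 := by exact_mod_cast hne
  have hd1 : d ≠ 1 := by omega
  have hL : ∀ z : ℂ, LL 1 d z = DirichletCharacter.completedLFunction (ch 1 d) z / Complex.Gammaℝ z := by
    intro z
    unfold LL
    rw [dif_pos hne, DirichletCharacter.LFunction_eq_completed_div_gammaFactor (ch 1 d) z (Or.inr hd1),
      heven.gammaFactor_def]
  have hFE := hp.completedLFunction_one_sub s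
  rw [hinv, hW, mul_one] at hFE
  have hs0 : Complex.Gammaℝ s ≠ 0 := Complex.Gammaℝ_ne_zero_of_re_pos h0
  have hs1 : Complex.Gammaℝ (1 - s) ≠ 0 := Complex.Gammaℝ_ne_zero_of_re_pos (by simpa using h1)
  have hgam : gam s = Complex.Gammaℝ (1 - s) / Complex.Gammaℝ s := by
    unfold gam
    rw [Complex.Gammaℝ_def, Complex.Gammaℝ_def]
    have hpi : (Real.pi : ℂ) ≠ 0 := by exact_mod_cast Real.pi_ne_zero
    have e1 : (Real.pi : ℂ) ^ (s - 1 / 2) * (Real.pi : ℂ) ^ (-s / 2) = (Real.pi : ℂ) ^ (-(1 - s) / 2) := by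
      rw [← Complex.cpow_add _ _ hpi]; congr 1; ring
    have e2 : (Real.pi : ℂ) ^ (-s / 2) ≠ 0 := by
      rw [Complex.cpow_ne_zero_iff]; exact Or.inl hpi
    have e3 : Complex.Gamma (s / 2) ≠ 0 := by
      apply Complex.Gamma_ne_zero_of_re_pos
      have : (s / 2).re = s.re / 2 := by simp
      rw [this]; linarith
    rw [← e1]
    field_simp
  rw [hL, hL, hFE, hgam]
  have e1 : (d : ℂ) ^ (1 / 2 - s) * (d : ℂ) ^ (s - 1 / 2) = 1 := by
    rw [← Complex.cpow_add _ _ hdC]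
    have : (1 : ℂ) / 2 - s + (s - 1 / 2) = 0 := by ring
    rw [this, Complex.cpow_zero]
  obtain ⟨A, hA⟩ : ∃ A : ℂ, A = (d : ℂ) ^ (1 / 2 - s) := ⟨_, rfl⟩
  obtain ⟨B, hB⟩ : ∃ B : ℂ, B = (d : ℂ) ^ (s - 1 / 2) := ⟨_, rfl⟩
  rw [← hA, ← hB] at e1
  rw [← hA, ← hB]
  field_simp
  linear_combination (-DirichletCharacter.completedLFunction (ch 1 d) s) * e1

end Pool.Agent.Run7.h713.MDS
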