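import Pool.Agent.Run7.h473.MD.Iface

set_option autoImplicit false

/-!
Piece GLU of helper473's project MD (`MP_fed7ff_nt`): gluing with the orthant.
-/

namespace Pool.Agent.Run7.h713.MDS

open Complex Filter Topology MeasureTheory Set
open Pool.Agent.Q48.MDS Pool.Agent.N879.QM Pool.Agent.Run7.h473.MD

/-- product of tempered functions -/
theorem tempered_mul {n : ℕ} {Ω : Set (Fin n → ℝ)} {f g : (Fin n → ℂ) → ℂ} (hf : Tempered Ω f)
    (hg : Tempered Ω g) : Tempered Ω (fun z => f z * g z) := by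
  refine ⟨hf.1.mul hg.1, fun K hK hc => ?_⟩
  obtain ⟨C, N, h⟩ := hf.2 K hK hc
  obtain ⟨C', N', h'⟩ := hg.2 K hK hc
  refine ⟨|C| * |C'|, N + N', fun z hz => ?_⟩
  have e0 : 0 ≤ 1 + ‖fun i => (z i).im‖ := by positivity
  have h1 := h z hz
  have h2 := h' z hz
  calc ‖f z * g z‖ = ‖f z‖ * ‖g z‖ := norm_mul _ _
    _ ≤ (C * (1 + ‖fun i => (z i).im‖) ^ N) * (C' * (1 + ‖fun i => (z i).im‖) ^ N') :=
        mul_le_mul h1 h2 (norm_nonneg _) ((norm_nonneg _).trans h1)
    _ = (C * C') * ((1 + ‖fun i => (z i).im‖) ^ (N + N')) := by rw [pow_add]; ring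
    _ ≤ (|C| * |C'|) * ((1 + ‖fun i => (z i).im‖) ^ (N + N')) := by
        apply mul_le_mul_of_nonneg_right _ (pow_nonneg e0 _)
        rw [← abs_mul]
        exact le_abs_self _

theorem tempered_one {n : ℕ} (Ω : Set (Fin n → ℝ)) : Tempered Ω (fun _ => (1 : ℂ)) := by
  refine ⟨differentiableOn_const _, fun K hK hc => ⟨1, 0, fun z hz => ?_⟩⟩
  simp

theorem tempered_congr {n : ℕ} {Ω : Set (Fin n → ℝ)} {f g : (Fin n → ℂ) → ℂ} (hf : Tempered Ω f)
    (h : EqOn g f (tube Ω)) : Tempered Ω g := by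
  refine ⟨hf.1.congr h, fun K hK hc => ?_⟩
  obtain ⟨C, N, hb⟩ := hf.2 K hK hc
  refine ⟨C, N, fun z hz => ?_⟩
  rw [h (hK hz)]
  exact hb z hz

theorem tempered_prod {n : ℕ} {ι : Type*} {Ω : Set (Fin n → ℝ)} (s : Finset ι)
    {f : ι → (Fin n → ℂ) → ℂ} (hf : ∀ i ∈ s, Tempered Ω (f i)) :
    Tempered Ω (fun z => ∏ i ∈ s, f i z) := by
  classical
  induction s using Finset.induction_on with
  | empty => simpa using tempered_one Ω
  | insert a s ha ih =>
    have h1 := hf a (Finset.mem_insert_self _ _)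
    have h2 := ih fun i hi => hf i (Finset.mem_insert_of_mem hi)
    refine tempered_congr (tempered_mul h1 h2) fun z _ => ?_
    rw [Finset.prod_insert ha]

theorem norm_coord_le {n : ℕ} (z : Fin n → ℂ) (i : Fin n) :
    ‖z i‖ ≤ ‖fun i => (z i).re‖ + ‖fun i => (z i).im‖ := by
  have h1 : ‖z i‖ ≤ |(z i).re| + |(z i).im| := Complex.norm_le_abs_re_add_abs_im (z i)
  have h2 := norm_le_pi_norm (fun i => (z i).re) i
  have h3 := norm_le_pi_norm (fun i => (z i).im) i
  simp only [Real.norm_eq_abs] at h2 h3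
  linarith

theorem tempered_sigma {k : ℕ} (J : Finset (Fin k)) (Ω : Set (Fin (k + 1) → ℝ)) :
    Tempered Ω (fun z => sigma J z - 1) := by
  constructor
  · unfold sigma
    apply Differentiable.differentiableOn
    fun_prop
  · intro K hK hc
    obtain ⟨R, hR⟩ := hc.isBounded.exists_norm_le
    refine ⟨(k + 1) * (|R| + 1) + k + 1, 1, fun z hz => ?_⟩
    have hr : ‖fun i => (z i).re‖ ≤ |R| := (hR _ hz).trans (le_abs_self R)
    obtain ⟨T, hT⟩ : ∃ T : ℝ, T = ‖fun i => (z i).im‖ := ⟨_, rfl⟩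
    have hT0 : 0 ≤ T := by rw [hT]; positivity
    have hz1 : ∀ i, ‖z i‖ ≤ |R| + T := fun i => by
      rw [hT]; exact (norm_coord_le z i).trans (by linarith)
    have h1 : ‖∑ j ∈ J, z j.succ‖ ≤ k * (|R| + T) := by
      calc ‖∑ j ∈ J, z j.succ‖ ≤ ∑ j ∈ J, ‖z j.succ‖ := norm_sum_le _ _
        _ ≤ ∑ _j ∈ J, (|R| + T) := Finset.sum_le_sum fun j _ => hz1 _
        _ = J.card * (|R| + T) := by rw [Finset.sum_const, nsmul_eq_mul]
        _ ≤ k * (|R| + T) := by
            apply mul_le_mul_of_nonneg_right _ (by positivity)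
            have := Finset.card_le_univ J
            rw [Fintype.card_fin] at this
            exact_mod_cast this
    have h2 : ‖((J.card : ℂ) / 2)‖ ≤ k := by
      rw [norm_div, Complex.norm_natCast, Complex.norm_two]
      have h3 : (J.card : ℝ) ≤ k := by
        have := Finset.card_le_univ J
        rw [Fintype.card_fin] at this
        exact_mod_cast this
      have h4 : (0 : ℝ) ≤ J.card := Nat.cast_nonneg _
      linarith
    rw [pow_one, ← hT]
    unfold sigma
    calc ‖z 0 - (J.card : ℂ) / 2 + ∑ j ∈ J, z j.succ - 1‖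
        ≤ ‖z 0 - (J.card : ℂ) / 2 + ∑ j ∈ J, z j.succ‖ + ‖(1 : ℂ)‖ := norm_sub_le _ _
      _ ≤ ‖z 0 - (J.card : ℂ) / 2‖ + ‖∑ j ∈ J, z j.succ‖ + ‖(1 : ℂ)‖ := by
          gcongr; exact norm_add_le _ _
      _ ≤ ‖z 0‖ + ‖(J.card : ℂ) / 2‖ + ‖∑ j ∈ J, z j.succ‖ + ‖(1 : ℂ)‖ := by
          gcongr; exact norm_sub_le _ _
      _ ≤ (|R| + T) + k + k * (|R| + T) + 1 := by
          rw [norm_one]
          linarith [hz1 0]
      _ ≤ ((k + 1) * (|R| + 1) + k + 1) * (1 + T) := by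
          have h5 : (0 : ℝ) ≤ k := Nat.cast_nonneg _
          have h6 : 0 ≤ |R| := abs_nonneg R
          have h7 : 0 ≤ (k : ℝ) * |R| * T := by positivity
          have h8 : 0 ≤ |R| * T := by positivity
          have h9 : 0 ≤ (k : ℝ) * T := by positivity
          nlinarith

theorem tempered_PP (k : ℕ) (Ω : Set (Fin (k + 1) → ℝ)) : Tempered Ω (PP k) := by
  unfold PP
  exact tempered_prod Finset.univ fun J _ => tempered_sigma J Ω

theorem convex_orth (n : ℕ) : Convex ℝ (orth n) := by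
  have : orth n = Set.pi univ (fun _ => Ioi (1 : ℝ)) := by
    ext x; simp [orth]
  rw [this]
  exact convex_pi fun _ _ => convex_Ioi 1

theorem reg_empty (k : ℕ) : reg k ∅ = orth (k + 1) := by
  ext p
  simp [reg, orth, Fin.forall_fin_succ]

theorem t_GLU : S_EQ → S_ABS 2 → S_GLU := by
  intro hEQ hABS k M Ω G hM hΩ hconv hne hG he p hp
  have hH : Tempered (orth (k + 1)) (Hs k M) := by
    rw [← reg_empty]
    exact hABS k M ∅ (by simp)
  have hF : Tempered (orth (k + 1)) (F k M) :=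
    tempered_congr (tempered_mul hH (tempered_PP k _)) (hEQ k M hM)
  obtain ⟨g, hg, _, h2⟩ := tempered_glue hΩ (isOpen_orth _) hG hF he
  refine ⟨Ω ∪ orth (k + 1), hΩ.union (isOpen_orth _), ⟨⟨p, Or.inl hp⟩, ?_⟩, subset_union_right,
    Or.inl hp, g, hg, h2⟩
  obtain ⟨x, hx⟩ := hne
  exact IsPreconnected.union x hx.1 hx.2 hconv.isPreconnected (convex_orth _).isPreconnected

end Pool.Agent.Run7.h713.MDS
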